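import Pool.Agent.W593.ZT.Stm

/-!
# Project ZT (helper593): ZT-PLF and ZT-DIR
-/

open scoped Classical

set_option autoImplicit false

namespace Pool.Agent.W688.ZT

open Finset Pool.Agent.W593.ZT

/-- two elements whose difference is not in `R` lie in two cosets -/
theorem two_le_ncl {G : Type} [AddCommGroup G] (R : AddSubgroup G) (A : Finset G) {x y : G}
    (hx : x ∈ A) (hy : y ∈ A) (h : x - y ∉ R) : 2 ≤ ncl R A := by
  unfold ncl
  have h1 : (QuotientAddGroup.mk x : G ⧸ R) ∈ A.image (fun x => (QuotientAddGroup.mk x : G ⧸ R)) :=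
    mem_image_of_mem _ hx
  have h2 : (QuotientAddGroup.mk y : G ⧸ R) ∈ A.image (fun x => (QuotientAddGroup.mk x : G ⧸ R)) :=
    mem_image_of_mem _ hy
  have h3 : (QuotientAddGroup.mk x : G ⧸ R) ≠ QuotientAddGroup.mk y := by
    intro h3
    apply h
    have h4 := QuotientAddGroup.eq.1 h3.symm
    rwa [neg_add_eq_sub] at h4
  exact Finset.one_lt_card.2 ⟨_, h1, _, h2, h3⟩

theorem ncl_bot {G : Type} [AddCommGroup G] (A : Finset G) :
    ncl (⊥ : AddSubgroup G) A = A.card := by
  unfold ncl
  apply card_image_of_injective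
  intro x y h
  have h4 := QuotientAddGroup.eq.1 h
  rw [AddSubgroup.mem_bot, neg_add_eq_zero] at h4
  exact h4

theorem card_filter_le_sum {V : Type} (Z : Finset V) (P : V → Prop) [DecidablePred P] (f : V → ℕ)
    (h : ∀ z ∈ Z, P z → 2 ≤ f z) : (Z.filter P).card ≤ ∑ z ∈ Z, (f z - 1) := by
  rw [card_filter]
  apply sum_le_sum
  intro z hz
  split_ifs with h1
  · have := h z hz h1
    omega
  · exact Nat.zero_le _

theorem plf : S_K2 → S_PLF := by
  intro hK V G _ _ c S W H H1 L0 b1 h1 hS hb hH hHW hL hLc hm hh hR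
  obtain ⟨L, hLL, hLc', hcov⟩ := hK V G S ⊤ le_top L0 (fun z => {c z b1, c z (h1 z)})
    (fun z _ => ⟨⟨_, mem_insert_self _ _⟩, fun _ _ _ _ => AddSubgroup.mem_top _⟩)
    (by
      intro R hR1 hR2
      rw [AddSubgroup.relIndex_top_right]
      refine (hR R hR1 hR2.ne).trans ?_
      apply Nat.add_le_add_left
      apply card_filter_le_sum
      intro z _ hzR
      exact two_le_ncl R _ (mem_insert_of_mem (mem_singleton_self _)) (mem_insert_self _ _) hzR)
  rw [AddSubgroup.relIndex_top_right] at hLc'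
  refine ⟨H1, L, fun z => {c z b1, c z (h1 z)}, hH, hHW, hLL.trans hL, ?_, hcov, by omega⟩
  intro z hz
  refine ⟨⟨_, mem_insert_self _ _⟩, ?_⟩
  intro x hx
  rw [mem_insert, mem_singleton] at hx
  unfold Cs
  rcases hx with rfl | rfl
  · exact mem_image_of_mem _ (hH hb)
  · exact mem_image_of_mem _ (hh z (hLL hz))

theorem dir : S_K2 → S_TREE2 → S_DIR := by
  intro hK hT V G _ _ _ c hc B hB hF hI
  obtain ⟨Z, hZ, -, hcov⟩ := hK V G ⊥ ⊤ bot_le (Finset.univ \ B) (Cs c B)
    (fun z _ => ⟨hB.image _, fun _ _ _ _ => AddSubgroup.mem_top _⟩)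
    (by
      intro R _ hR2
      rw [AddSubgroup.relIndex_top_right]
      by_cases hR : R = ⊥
      · subst hR
        rw [AddSubgroup.index_bot, Nat.card_eq_fintype_card]
        refine hF.trans ?_
        rw [add_comm]
        apply Nat.add_le_add_left
        unfold FF
        apply sum_le_sum
        intro z _
        rw [ncl_bot]
        exact Nat.sub_le_sub_right (min_le_left _ _) _
      · refine (hI R hR hR2.ne).trans ?_
        rw [add_comm]
        apply Nat.add_le_add_left
        unfold nc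
        apply card_filter_le_sum
        intro z _ hzR
        unfold Tc at hzR
        push Not at hzR
        obtain ⟨x, hx, y, hy, hxy⟩ := hzR
        exact two_le_ncl R _ hx hy hxy)
  exact hc.not (hT V G c hc.sym B Z (Cs c B) hB hZ (fun z _ => ⟨hB.image _, Subset.rfl⟩) hcov)

end Pool.Agent.W688.ZT
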